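import Pool.Agent.Q64.GL.Stm

/-!
# Lemma job GL-TMB: the tangential maximal function is bounded on weighted spaces
-/

set_option autoImplicit false

open MeasureTheory Set Filter Topology
open scoped ENNReal NNReal Real

namespace Pool.Agent.Q90.GL

open Pool.Agent.Q64.GL

lemma lint_wd (u g : ℝ → ℝ≥0∞) (hu : Measurable u) (hg : Measurable g) :
    ∫⁻ x, g x ∂(volume.withDensity u) = ∫⁻ x, g x * u x := by
  rw [lintegral_withDensity_eq_lintegral_mul volume hu hg]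
  exact lintegral_congr fun x => by simp [mul_comm]

lemma set_lint_wd (u g : ℝ → ℝ≥0∞) (hu : Measurable u) (hg : Measurable g) (z y : ℝ) :
    ∫⁻ x in Ioo (z - y) (z + y), g x ∂(volume.withDensity u) =
      ∫⁻ x in Ioo (z - y) (z + y), g x * u x := by
  rw [setLIntegral_withDensity_eq_setLIntegral_mul volume hu hg measurableSet_Ioo]
  exact lintegral_congr fun x => by simp [mul_comm]

lemma wd_Ioo (u : ℝ → ℝ≥0∞) (z y : ℝ) :
    (volume.withDensity u) (Ioo (z - y) (z + y)) = m u z y := by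
  rw [withDensity_apply _ measurableSet_Ioo]; rfl

lemma m_pos (u : ℝ → ℝ≥0∞) (hu : Measurable u) (hpos : ∀ x, u x ≠ 0) (z y : ℝ) (hy : 0 < y) :
    m u z y ≠ 0 := by
  intro h0
  unfold m at h0
  rw [lintegral_eq_zero_iff hu] at h0
  have h1 : ∀ᵐ x ∂(volume.restrict (Ioo (z - y) (z + y))), False := by
    filter_upwards [h0] with x hx
    exact hpos x hx
  have h2 : (volume.restrict (Ioo (z - y) (z + y))) univ = 0 := by
    have := ae_iff.1 h1
    simpa using this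
  rw [Measure.restrict_apply_univ, Real.volume_Ioo] at h2
  have h3 : (0 : ℝ) < z + y - (z - y) := by linarith
  simp only [ENNReal.ofReal_eq_zero, not_le.2 h3] at h2

lemma m_nonpos (u : ℝ → ℝ≥0∞) (z y : ℝ) (hy : y ≤ 0) : m u z y = 0 := by
  unfold m
  rw [Ioo_eq_empty (by linarith)]
  simp

lemma m_mono (u : ℝ → ℝ≥0∞) (z y y' : ℝ) (hy : y ≤ y') : m u z y ≤ m u z y' := by
  unfold m
  exact lintegral_mono_set (Ioo_subset_Ioo (by linarith) (by linarith))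

/-- The dual weight has finite masses. -/
lemma sig_fin (p : ℝ) (hp : 1 < p) (u : ℝ → ℝ≥0∞) (Q : ℝ≥0) (h : APd p u Q) (z y : ℝ) :
    m (fun x => u x ^ (-1 / (p - 1))) z y ≠ ∞ := by
  rcases le_or_gt y 0 with hy | hy
  · rw [m_nonpos _ z y hy]; simp
  intro hinf
  have h1 := h.ap z y hy
  rw [hinf, ENNReal.top_rpow_of_pos (by linarith), ENNReal.mul_top (m_pos u h.meas h.pos z y hy)] at h1
  have h2 : (Q : ℝ≥0∞) * ENNReal.ofReal (2 * y) ^ p < ∞ := by
    apply ENNReal.mul_lt_top ENNReal.coe_lt_top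
    exact ENNReal.rpow_lt_top_of_nonneg (by linarith) ENNReal.ofReal_ne_top
  exact absurd (lt_of_le_of_lt h1 h2) (by simp)

lemma le_MF (μ : Measure ℝ) (g : ℝ → ℝ≥0∞) (x z y : ℝ) (hy : 0 < y)
    (hx : x ∈ Ioo (z - y) (z + y)) :
    (∫⁻ t in Ioo (z - y) (z + y), g t ∂μ) / μ (Ioo (z - y) (z + y)) ≤ MF μ g x :=
  le_iSup_of_le z (le_iSup_of_le y (le_iSup_of_le hy (le_iSup_of_le hx le_rfl)))

/-- The dual weight. -/
noncomputable def sg (p : ℝ) (u : ℝ → ℝ≥0∞) : ℝ → ℝ≥0∞ := fun x => u x ^ (-1 / (p - 1))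

lemma sg_meas (p : ℝ) (u : ℝ → ℝ≥0∞) (hu : Measurable u) : Measurable (sg p u) :=
  hu.pow_const _

lemma sg_pos (p : ℝ) (u : ℝ → ℝ≥0∞) (h0 : ∀ x, u x ≠ 0) (h1 : ∀ x, u x ≠ ∞) (x : ℝ) :
    sg p u x ≠ 0 := by
  unfold sg
  intro h
  rcases ENNReal.rpow_eq_zero_iff.1 h with h | h
  · exact h0 x h.1
  · exact h1 x h.1

lemma sg_fin (p : ℝ) (u : ℝ → ℝ≥0∞) (h0 : ∀ x, u x ≠ 0) (h1 : ∀ x, u x ≠ ∞) (x : ℝ) :
    sg p u x ≠ ∞ := by
  unfold sg
  exact ENNReal.rpow_ne_top_of_ne_zero (h0 x) (h1 x)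

/-- The function `f / σ`. -/
noncomputable def gg (p : ℝ) (u f : ℝ → ℝ≥0∞) : ℝ → ℝ≥0∞ := fun x => f x / sg p u x

/-- The dual measure. -/
noncomputable def nu (p : ℝ) (u : ℝ → ℝ≥0∞) : Measure ℝ := volume.withDensity (sg p u)

/-- The first maximal function. -/
noncomputable def GG (p : ℝ) (u f : ℝ → ℝ≥0∞) : ℝ → ℝ≥0∞ := MF (nu p u) (gg p u f)

/-- `H = G^(p-1)/u`. -/
noncomputable def HH (p : ℝ) (u f : ℝ → ℝ≥0∞) : ℝ → ℝ≥0∞ := fun x => GG p u f x ^ (p - 1) / u x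

lemma gg_meas (p : ℝ) (u f : ℝ → ℝ≥0∞) (hu : Measurable u) (hf : Measurable f) :
    Measurable (gg p u f) := hf.div (sg_meas p u hu)

/-- Step C. -/
lemma stepC (p : ℝ) (hp : 1 < p) (u f : ℝ → ℝ≥0∞) (Q : ℝ≥0) (h : APd p u Q) (hf : Measurable f)
    (z y : ℝ) (hy : 0 < y) (x' : ℝ) (hx : x' ∈ Ioo (z - y) (z + y)) :
    m f z y ≤ m (sg p u) z y * GG p u f x' := by
  have h1 := le_MF (nu p u) (gg p u f) x' z y hy hx
  have h2 : ∫⁻ t in Ioo (z - y) (z + y), gg p u f t ∂(nu p u) = m f z y := by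
    rw [nu, set_lint_wd _ _ (sg_meas p u h.meas) (gg_meas p u f h.meas hf)]
    unfold m
    refine lintegral_congr fun x => ?_
    unfold gg
    exact ENNReal.div_mul_cancel (sg_pos p u h.pos h.fin x) (sg_fin p u h.pos h.fin x)
  rw [h2, nu, wd_Ioo] at h1
  have h3 : m (sg p u) z y ≠ 0 := m_pos _ (sg_meas p u h.meas) (sg_pos p u h.pos h.fin) z y hy
  have h4 : m (sg p u) z y ≠ ∞ := sig_fin p hp u Q h z y
  rw [ENNReal.div_le_iff h3 h4] at h1
  rw [mul_comm]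
  exact h1

lemma vol_J (z y : ℝ) : volume (Ioo (z - y) (z + y)) = ENNReal.ofReal (2 * y) := by
  rw [Real.volume_Ioo]; congr 1; ring

/-- Step D. -/
lemma stepD (p : ℝ) (hp : 1 < p) (u f : ℝ → ℝ≥0∞) (Q : ℝ≥0) (h : APd p u Q) (hf : Measurable f)
    (z y : ℝ) (hy : 0 < y) (hG : Measurable (GG p u f)) :
    m u z y * m f z y ^ (p - 1) ≤ Q * ENNReal.ofReal (2 * y) ^ (p - 1) *
      ∫⁻ x in Ioo (z - y) (z + y), GG p u f x ^ (p - 1) := by
  set L := ENNReal.ofReal (2 * y) with hL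
  have hL0 : L ≠ 0 := by rw [hL]; simp; linarith
  have hLt : L ≠ ∞ := ENNReal.ofReal_ne_top
  have h1 : ∀ x' ∈ Ioo (z - y) (z + y), m u z y * m f z y ^ (p - 1) ≤
      Q * L ^ p * GG p u f x' ^ (p - 1) := by
    intro x' hx'
    have h2 := stepC p hp u f Q h hf z y hy x' hx'
    calc m u z y * m f z y ^ (p - 1) ≤ m u z y * (m (sg p u) z y * GG p u f x') ^ (p - 1) := by
          gcongr
      _ = m u z y * m (sg p u) z y ^ (p - 1) * GG p u f x' ^ (p - 1) := by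
          rw [ENNReal.mul_rpow_of_nonneg _ _ (by linarith : (0 : ℝ) ≤ p - 1), mul_assoc]
      _ ≤ Q * L ^ p * GG p u f x' ^ (p - 1) := by
          exact mul_le_mul' (h.ap z y hy) le_rfl
  have h3 : ∫⁻ _ in Ioo (z - y) (z + y), m u z y * m f z y ^ (p - 1) ≤
      ∫⁻ x in Ioo (z - y) (z + y), Q * L ^ p * GG p u f x ^ (p - 1) :=
    setLIntegral_mono' measurableSet_Ioo h1
  rw [setLIntegral_const, vol_J, ← hL, lintegral_const_mul _ (hG.pow_const _)] at h3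
  have h4 : L ^ p = L ^ (p - 1) * L := by
    nth_rewrite 3 [← ENNReal.rpow_one L]
    rw [← ENNReal.rpow_add _ _ hL0 hLt]; congr 1; ring
  rw [h4] at h3
  have h5 : m u z y * m f z y ^ (p - 1) * L ≤ (Q * L ^ (p - 1) *
      ∫⁻ x in Ioo (z - y) (z + y), GG p u f x ^ (p - 1)) * L := by
    calc _ ≤ _ := h3
      _ = _ := by ring
  exact (ENNReal.mul_le_mul_iff_left hL0 hLt).1 h5

lemma stepE (p : ℝ) (u f : ℝ → ℝ≥0∞) (Q : ℝ≥0) (h : APd p u Q)
    (z y : ℝ) (hG : Measurable (GG p u f)) :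
    ∫⁻ x in Ioo (z - y) (z + y), GG p u f x ^ (p - 1) =
      ∫⁻ x in Ioo (z - y) (z + y), HH p u f x ∂(volume.withDensity u) := by
  have hHm : Measurable (HH p u f) := (hG.pow_const _).div h.meas
  rw [set_lint_wd _ _ h.meas hHm]
  refine lintegral_congr fun x => ?_
  exact (ENNReal.div_mul_cancel (h.pos x) (h.fin x)).symm

/-- Step F: Jensen. -/
lemma stepF (μ : Measure ℝ) (H : ℝ → ℝ≥0∞) (hH : Measurable H) (s : ℝ) (hs : 1 ≤ s) (J : Set ℝ) :
    ∫⁻ x in J, H x ∂μ ≤ μ J ^ (1 - 1 / s) * (∫⁻ x in J, H x ^ s ∂μ) ^ (1 / s) := by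
  have h1 := eLpNorm'_le_eLpNorm'_mul_rpow_measure_univ (μ := μ.restrict J) (f := H) one_pos hs
    hH.aestronglyMeasurable
  simp only [eLpNorm', enorm_eq_self, ENNReal.rpow_one, div_one, Measure.restrict_apply_univ] at h1
  rw [mul_comm] at h1
  simpa using h1

/-- Step G. -/
lemma stepG (p s : ℝ) (hp : 1 < p) (hs : 1 ≤ s) (u f : ℝ → ℝ≥0∞) (Q : ℝ≥0) (h : APd p u Q)
    (hf : Measurable f) (z y : ℝ) (hy : 0 < y) (hG : Measurable (GG p u f)) :
    (m f z y / ENNReal.ofReal (2 * y)) ^ (p - 1) ≤ Q * ((m u z y)⁻¹ *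
      ∫⁻ x in Ioo (z - y) (z + y), HH p u f x ^ s ∂(volume.withDensity u)) ^ (1 / s) := by
  set L := ENNReal.ofReal (2 * y) with hL
  have hL0 : L ≠ 0 := by rw [hL]; simp; linarith
  have hLt : L ≠ ∞ := ENNReal.ofReal_ne_top
  have hm0 : m u z y ≠ 0 := m_pos u h.meas h.pos z y hy
  have hmt : m u z y ≠ ∞ := h.loc z y
  have hHm : Measurable (HH p u f) := (hG.pow_const _).div h.meas
  have h1 := stepD p hp u f Q h hf z y hy hG
  rw [stepE p u f Q h z y hG, ← hL] at h1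
  have h2 := stepF (volume.withDensity u) (HH p u f) hHm s hs (Ioo (z - y) (z + y))
  rw [wd_Ioo] at h2
  set A := ∫⁻ x in Ioo (z - y) (z + y), HH p u f x ∂(volume.withDensity u)
  set B := ∫⁻ x in Ioo (z - y) (z + y), HH p u f x ^ s ∂(volume.withDensity u)
  set M := m u z y
  have hp1 : (0 : ℝ) ≤ p - 1 := by linarith
  have hLp0 : L ^ (p - 1) ≠ 0 := by
    intro h0
    rcases ENNReal.rpow_eq_zero_iff.1 h0 with h0 | h0
    · exact hL0 h0.1
    · exact hLt h0.1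
  have hLpt : L ^ (p - 1) ≠ ∞ := ENNReal.rpow_ne_top_of_nonneg hp1 hLt
  have h3 : m f z y ^ (p - 1) ≤ Q * (M⁻¹ * A) * L ^ (p - 1) := by
    have h4 : M * m f z y ^ (p - 1) ≤ M * (Q * (M⁻¹ * A) * L ^ (p - 1)) := by
      calc _ ≤ _ := h1
        _ = (M * M⁻¹) * (Q * L ^ (p - 1) * A) := by
            rw [ENNReal.mul_inv_cancel hm0 hmt, one_mul]
        _ = _ := by ring
    exact (ENNReal.mul_le_mul_iff_right hm0 hmt).1 h4
  have h5 : M⁻¹ * A ≤ (M⁻¹ * B) ^ (1 / s) := by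
    calc M⁻¹ * A ≤ M⁻¹ * (M ^ (1 - 1 / s) * B ^ (1 / s)) := by gcongr
      _ = (M⁻¹ * M ^ (1 - 1 / s)) * B ^ (1 / s) := by ring
      _ = (M⁻¹) ^ (1 / s) * B ^ (1 / s) := by
          congr 1
          rw [ENNReal.inv_rpow, ← ENNReal.rpow_neg, ← ENNReal.rpow_neg_one,
            ← ENNReal.rpow_add _ _ hm0 hmt]
          congr 1; ring
      _ = (M⁻¹ * B) ^ (1 / s) := by
          rw [ENNReal.mul_rpow_of_nonneg _ _ (by positivity)]
  rw [ENNReal.div_rpow_of_nonneg _ _ hp1, ENNReal.div_le_iff hLp0 hLpt]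
  calc _ ≤ _ := h3
    _ ≤ _ := by gcongr

/-- Step H. -/
lemma stepH (q : ℝ) (u : ℝ → ℝ≥0∞) (hu : Measurable u) (hpos : ∀ x, u x ≠ 0)
    (hloc : ∀ z y, m u z y ≠ ∞) (D : ℝ≥0)
    (hD : Growth q u D) (F : ℝ → ℝ≥0∞) (z y x : ℝ) (hy : 0 < y) :
    (m u z y)⁻¹ * ∫⁻ x in Ioo (z - y) (z + y), F x ∂(volume.withDensity u) ≤
      D * ENNReal.ofReal (((|x - z| + y) / y) ^ q) * MF (volume.withDensity u) F x := by
  set t := (|x - z| + y) / y with ht
  have ht1 : 1 ≤ t := by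
    rw [ht, le_div_iff₀ hy]; linarith [abs_nonneg (x - z)]
  have hty : t * y = |x - z| + y := by rw [ht]; field_simp
  have hx : x ∈ Ioo (z - t * y) (z + t * y) := by
    rw [hty]
    constructor
    · linarith [neg_abs_le (x - z)]
    · linarith [le_abs_self (x - z)]
  have h0 : 0 < t * y := by positivity
  have h1 := le_MF (volume.withDensity u) F x z (t * y) h0 hx
  rw [wd_Ioo] at h1
  have h2 := hD z y t hy ht1
  have hm0 : m u z y ≠ 0 := m_pos u hu hpos z y hy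
  have hmt : m u z y ≠ ∞ := hloc z y
  have hm0' : m u z (t * y) ≠ 0 := m_pos u hu hpos z _ h0
  have hmt' : m u z (t * y) ≠ ∞ := hloc z _
  have h3 : (m u z y)⁻¹ ≤ D * ENNReal.ofReal (t ^ q) * (m u z (t * y))⁻¹ := by
    have h4 : (m u z (t * y))⁻¹ * m u z (t * y) * (m u z y)⁻¹ ≤
        (m u z (t * y))⁻¹ * (D * ENNReal.ofReal (t ^ q) * m u z y) * (m u z y)⁻¹ := by gcongr
    rw [ENNReal.inv_mul_cancel hm0' hmt', one_mul] at h4
    calc _ ≤ _ := h4
      _ = D * ENNReal.ofReal (t ^ q) * (m u z (t * y))⁻¹ * (m u z y * (m u z y)⁻¹) := by ring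
      _ = _ := by rw [ENNReal.mul_inv_cancel hm0 hmt, mul_one]
  have h5 : ∫⁻ x in Ioo (z - y) (z + y), F x ∂(volume.withDensity u) ≤
      ∫⁻ x in Ioo (z - t * y) (z + t * y), F x ∂(volume.withDensity u) := by
    apply lintegral_mono_set
    have : y ≤ t * y := by nlinarith
    exact Ioo_subset_Ioo (by linarith) (by linarith)
  calc _ ≤ (D * ENNReal.ofReal (t ^ q) * (m u z (t * y))⁻¹) *
        ∫⁻ x in Ioo (z - t * y) (z + t * y), F x ∂(volume.withDensity u) := by gcongr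
    _ = D * ENNReal.ofReal (t ^ q) *
        ((∫⁻ x in Ioo (z - t * y) (z + t * y), F x ∂(volume.withDensity u)) / m u z (t * y)) := by
        rw [ENNReal.div_eq_inv_mul]; ring
    _ ≤ _ := by gcongr

/-- Step I. -/
lemma stepI (p a q s : ℝ) (hp : 1 < p) (hs : 1 ≤ s) (hqs : q / s ≤ a * (p - 1))
    (u f : ℝ → ℝ≥0∞) (Q D : ℝ≥0) (h : APd p u Q) (hD : Growth q u D)
    (hf : Measurable f) (hG : Measurable (GG p u f)) (z y x : ℝ) (hy : 0 < y) :
    ENNReal.ofReal (ker a x z y) * (m f z y / ENNReal.ofReal (2 * y)) ≤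
      (Q * (D * MF (volume.withDensity u) (fun x => HH p u f x ^ s) x) ^ (1 / s)) ^ (1 / (p - 1)) := by
  have hp1 : (0 : ℝ) < p - 1 := by linarith
  have hs0 : (0 : ℝ) < s := by linarith
  have h1 := stepG p s hp hs u f Q h hf z y hy hG
  have h2 := stepH q u h.meas h.pos h.loc D hD (fun x => HH p u f x ^ s) z y x hy
  set t := (|x - z| + y) / y with ht
  have ht1 : 1 ≤ t := by
    rw [ht, le_div_iff₀ hy]; linarith [abs_nonneg (x - z)]
  have ht0 : 0 < t := by linarith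
  set MM := MF (volume.withDensity u) (fun x => HH p u f x ^ s) x
  have h3 : (m f z y / ENNReal.ofReal (2 * y)) ^ (p - 1) ≤
      Q * (D * MM) ^ (1 / s) * ENNReal.ofReal (t ^ (q / s)) := by
    calc _ ≤ _ := h1
      _ ≤ Q * (D * ENNReal.ofReal (t ^ q) * MM) ^ (1 / s) := by gcongr
      _ = Q * (D * MM) ^ (1 / s) * ENNReal.ofReal (t ^ q) ^ (1 / s) := by
          rw [show D * ENNReal.ofReal (t ^ q) * MM = (D * MM) * ENNReal.ofReal (t ^ q) by ring,
            ENNReal.mul_rpow_of_nonneg _ _ (by positivity)]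
          ring
      _ = _ := by
          congr 1
          rw [ENNReal.ofReal_rpow_of_pos (by positivity), ← Real.rpow_mul ht0.le]
          congr 2; ring
  have hker : ENNReal.ofReal (ker a x z y) ^ (p - 1) = ENNReal.ofReal (t ^ (-(a * (p - 1)))) := by
    have h5 : ker a x z y = t ^ (-a) := by
      unfold Pool.Agent.Q64.GL.ker
      rw [Real.rpow_neg ht0.le, ← Real.inv_rpow ht0.le, ht, inv_div]
    rw [h5, ENNReal.ofReal_rpow_of_pos (by positivity), ← Real.rpow_mul ht0.le]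
    congr 2; ring
  have h4 : (ENNReal.ofReal (ker a x z y) * (m f z y / ENNReal.ofReal (2 * y))) ^ (p - 1) ≤
      Q * (D * MM) ^ (1 / s) := by
    rw [ENNReal.mul_rpow_of_nonneg _ _ hp1.le, hker]
    calc _ ≤ ENNReal.ofReal (t ^ (-(a * (p - 1)))) *
          (Q * (D * MM) ^ (1 / s) * ENNReal.ofReal (t ^ (q / s))) := by gcongr
      _ = Q * (D * MM) ^ (1 / s) *
          (ENNReal.ofReal (t ^ (-(a * (p - 1)))) * ENNReal.ofReal (t ^ (q / s))) := by ring
      _ = Q * (D * MM) ^ (1 / s) * ENNReal.ofReal (t ^ (-(a * (p - 1)) + q / s)) := by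
          rw [← ENNReal.ofReal_mul (by positivity), ← Real.rpow_add ht0]
      _ ≤ Q * (D * MM) ^ (1 / s) * 1 := by
          gcongr
          rw [← ENNReal.ofReal_one]
          apply ENNReal.ofReal_le_ofReal
          exact Real.rpow_le_one_of_one_le_of_nonpos ht1 (by linarith)
      _ = _ := mul_one _
  have h6 : ENNReal.ofReal (ker a x z y) * (m f z y / ENNReal.ofReal (2 * y)) =
      ((ENNReal.ofReal (ker a x z y) * (m f z y / ENNReal.ofReal (2 * y))) ^ (p - 1)) ^ (1 / (p - 1)) := by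
    rw [← ENNReal.rpow_mul, mul_one_div_cancel hp1.ne', ENNReal.rpow_one]
  rw [h6]
  exact ENNReal.rpow_le_rpow h4 (by positivity)

/-- Step J: pointwise bound. -/
lemma stepJ (p a q s : ℝ) (hp : 1 < p) (hs : 1 ≤ s) (hqs : q / s ≤ a * (p - 1))
    (u f : ℝ → ℝ≥0∞) (Q D : ℝ≥0) (h : APd p u Q) (hD : Growth q u D)
    (hf : Measurable f) (hG : Measurable (GG p u f)) (x : ℝ) :
    TM a f x ^ p ≤ (Q : ℝ≥0∞) ^ (p / (p - 1)) * (D : ℝ≥0∞) ^ (p / (p - 1) / s) *
      MF (volume.withDensity u) (fun x => HH p u f x ^ s) x ^ (p / (p - 1) / s) := by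
  have hp1 : (0 : ℝ) < p - 1 := by linarith
  have hs0 : (0 : ℝ) < s := by linarith
  have h1 : TM a f x ≤
      (Q * (D * MF (volume.withDensity u) (fun x => HH p u f x ^ s) x) ^ (1 / s)) ^ (1 / (p - 1)) := by
    unfold TM
    refine iSup_le fun z => iSup_le fun y => iSup_le fun hy => ?_
    exact stepI p a q s hp hs hqs u f Q D h hD hf hG z y x hy
  calc TM a f x ^ p ≤
      ((Q * (D * MF (volume.withDensity u) (fun x => HH p u f x ^ s) x) ^ (1 / s)) ^ (1 / (p - 1))) ^ p :=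
        ENNReal.rpow_le_rpow h1 (by linarith)
    _ = _ := by
        rw [← ENNReal.rpow_mul, ENNReal.mul_rpow_of_nonneg _ _ (by positivity), ← ENNReal.rpow_mul,
          ENNReal.mul_rpow_of_nonneg _ _ (by positivity), ← mul_assoc]
        have e1 : 1 / (p - 1) * p = p / (p - 1) := by ring
        have e2 : 1 / s * (1 / (p - 1) * p) = p / (p - 1) / s := by ring
        rw [e2, e1]

theorem t_TMB (hMAX : S_MAX) : S_TMB := by
  intro p a q hp ha hq hqa Q D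
  have hp1 : (0 : ℝ) < p - 1 := by linarith
  set s : ℝ := max 1 (q / (a * (p - 1))) with hs
  have hs1 : 1 ≤ s := le_max_left _ _
  have hs0 : 0 < s := by linarith
  have hqs : q / s ≤ a * (p - 1) := by
    have h1 : q / (a * (p - 1)) ≤ s := le_max_right _ _
    have h2 : 0 < a * (p - 1) := by positivity
    rw [div_le_iff₀ h2] at h1
    rw [div_le_iff₀ hs0]
    linarith
  have hsp : s < p / (p - 1) := by
    rw [hs, max_lt_iff]
    constructor
    · rw [lt_div_iff₀ hp1]; linarith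
    · rw [div_lt_div_iff₀ (by positivity) hp1]
      nlinarith
  have hr : 1 < p / (p - 1) / s := by
    rw [lt_div_iff₀ hs0]; linarith
  obtain ⟨C1, hC1⟩ := hMAX (p / (p - 1) / s) hr
  obtain ⟨C2, hC2⟩ := hMAX p hp
  refine ⟨Q ^ (p / (p - 1)) * D ^ (p / (p - 1) / s) * C1 * C2, ?_⟩
  intro u h hD f hf
  set μ := volume.withDensity u with hμ
  have hμf : ∀ z y : ℝ, μ (Ioo (z - y) (z + y)) ≠ ∞ := by
    intro z y; rw [hμ, wd_Ioo]; exact h.loc z y
  have hνf : ∀ z y : ℝ, (nu p u) (Ioo (z - y) (z + y)) ≠ ∞ := by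
    intro z y; rw [nu, wd_Ioo]; exact sig_fin p hp u Q h z y
  have hg := gg_meas p u f h.meas hf
  obtain ⟨hG, hG2⟩ := hC2 (nu p u) hνf (gg p u f) hg
  have hGm : Measurable (GG p u f) := hG
  have hHm : Measurable (HH p u f) := (hGm.pow_const _).div h.meas
  obtain ⟨hM, hM2⟩ := hC1 μ hμf (fun x => HH p u f x ^ s) (hHm.pow_const _)
  have h1 : ∫⁻ x, TM a f x ^ p * u x ≤ ∫⁻ x, ((Q : ℝ≥0∞) ^ (p / (p - 1)) *
      (D : ℝ≥0∞) ^ (p / (p - 1) / s) * MF μ (fun x => HH p u f x ^ s) x ^ (p / (p - 1) / s)) * u x := by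
    refine lintegral_mono fun x => ?_
    exact mul_le_mul' (stepJ p a q s hp hs1 hqs u f Q D h hD hf hGm x) le_rfl
  have h2 : ∫⁻ x, ((Q : ℝ≥0∞) ^ (p / (p - 1)) *
      (D : ℝ≥0∞) ^ (p / (p - 1) / s) * MF μ (fun x => HH p u f x ^ s) x ^ (p / (p - 1) / s)) * u x =
      (Q : ℝ≥0∞) ^ (p / (p - 1)) * (D : ℝ≥0∞) ^ (p / (p - 1) / s) *
        ∫⁻ x, MF μ (fun x => HH p u f x ^ s) x ^ (p / (p - 1) / s) ∂μ := by
    have hm' : Measurable (fun x => MF μ (fun x => HH p u f x ^ s) x ^ (p / (p - 1) / s) * u x) :=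
      (hM.pow_const _).mul h.meas
    have e1 : ∫⁻ x, MF μ (fun x => HH p u f x ^ s) x ^ (p / (p - 1) / s) ∂μ =
        ∫⁻ x, MF μ (fun x => HH p u f x ^ s) x ^ (p / (p - 1) / s) * u x :=
      lint_wd u _ h.meas (hM.pow_const _)
    rw [e1, ← lintegral_const_mul _ hm']
    refine lintegral_congr fun x => ?_
    rw [mul_assoc]
  have h3 : ∫⁻ x, (HH p u f x ^ s) ^ (p / (p - 1) / s) ∂μ = ∫⁻ x, GG p u f x ^ p ∂(nu p u) := by
    rw [hμ, nu, lint_wd u _ h.meas ((hHm.pow_const _).pow_const _),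
      lint_wd (sg p u) _ (sg_meas p u h.meas) (hGm.pow_const _)]
    refine lintegral_congr fun x => ?_
    rw [← ENNReal.rpow_mul, mul_div_cancel₀ _ hs0.ne']
    unfold HH sg
    rw [ENNReal.div_rpow_of_nonneg _ _ (by positivity), ← ENNReal.rpow_mul,
      mul_div_cancel₀ _ hp1.ne', div_eq_mul_inv, mul_assoc]
    congr 1
    rw [← ENNReal.rpow_neg]
    nth_rewrite 2 [← ENNReal.rpow_one (u x)]
    rw [← ENNReal.rpow_add _ _ (h.pos x) (h.fin x)]
    congr 1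
    field_simp
    ring
  have h4 : ∫⁻ x, gg p u f x ^ p ∂(nu p u) = ∫⁻ x, f x ^ p * u x := by
    rw [nu, lint_wd (sg p u) _ (sg_meas p u h.meas) (hg.pow_const _)]
    refine lintegral_congr fun x => ?_
    unfold gg
    rw [ENNReal.div_rpow_of_nonneg _ _ (by positivity), div_eq_mul_inv, mul_assoc]
    congr 1
    rw [← ENNReal.rpow_neg]
    nth_rewrite 2 [← ENNReal.rpow_one (sg p u x)]
    rw [← ENNReal.rpow_add _ _ (sg_pos p u h.pos h.fin x) (sg_fin p u h.pos h.fin x)]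
    unfold sg
    rw [← ENNReal.rpow_mul]
    nth_rewrite 2 [← ENNReal.rpow_one (u x)]
    congr 1
    field_simp
    ring
  calc ∫⁻ x, TM a f x ^ p * u x ≤ _ := h1
    _ = _ := h2
    _ ≤ (Q : ℝ≥0∞) ^ (p / (p - 1)) * (D : ℝ≥0∞) ^ (p / (p - 1) / s) *
        (C1 * ∫⁻ x, (HH p u f x ^ s) ^ (p / (p - 1) / s) ∂μ) := by gcongr
    _ ≤ (Q : ℝ≥0∞) ^ (p / (p - 1)) * (D : ℝ≥0∞) ^ (p / (p - 1) / s) *
        (C1 * (C2 * ∫⁻ x, gg p u f x ^ p ∂(nu p u))) := by
        rw [h3]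
        gcongr
        exact hG2
    _ = _ := by
        rw [h4, ENNReal.coe_mul, ENNReal.coe_mul, ENNReal.coe_mul,
          ENNReal.coe_rpow_of_nonneg _ (by positivity), ENNReal.coe_rpow_of_nonneg _ (by positivity)]
        ring

end Pool.Agent.Q90.GL
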